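import Mathlib

/-!
`K_{2,3}`-free Cayley graphs of `(Z/2)^k` with `c n^(3/2)` edges (helper98).

The connection set is `{(x, x^3)}` in `F_q x F_q`, `q = 2^m`.
-/

set_option autoImplicit false

namespace Pool.MP9a747aH98

open Finset

/-- the Cayley graph of `(Z/2)^k` with connection set `S` -/
def cay {k : ℕ} (S : Finset (Fin k → ZMod 2)) : SimpleGraph (Fin k → ZMod 2) where
  Adj u v := u ≠ v ∧ u + v ∈ S
  symm := ⟨fun u v h => ⟨h.1.symm, by rw [add_comm]; exact h.2⟩⟩
  loopless := ⟨fun u h => h.1 rfl⟩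

theorem two_zero {k : ℕ} (u : Fin k → ZMod 2) : u + u = 0 := by
  funext i
  exact CharTwo.add_self_eq_zero (u i)

/-- the property of `S` which excludes `K_{2,3}` -/
def Good {k : ℕ} (S : Finset (Fin k → ZMod 2)) : Prop :=
  ∀ a s₁ s₂ s₃ : Fin k → ZMod 2, a ≠ 0 → s₁ ∈ S → s₂ ∈ S → s₃ ∈ S → s₁ + a ∈ S → s₂ + a ∈ S →
    s₃ + a ∈ S → s₁ = s₂ ∨ s₁ = s₃ ∨ s₂ = s₃

theorem not_contained {k : ℕ} {S : Finset (Fin k → ZMod 2)} (hS : Good S) {r s : ℕ}
    (hr : 2 ≤ r) (hs : 3 ≤ s) :
    ¬ (completeBipartiteGraph (Fin r) (Fin s)).IsContained (cay S) := by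
  rintro ⟨⟨f, hf⟩⟩
  have hadj : ∀ (i : Fin r) (j : Fin s), f (Sum.inl i) + f (Sum.inr j) ∈ S := by
    intro i j
    exact (f.map_adj (by simp : (completeBipartiteGraph (Fin r) (Fin s)).Adj
      (Sum.inl i) (Sum.inr j))).2
  set u := f (Sum.inl (⟨0, by omega⟩ : Fin r)) with hu
  set v := f (Sum.inl (⟨1, by omega⟩ : Fin r)) with hv
  have huv : u + v ≠ 0 := by
    intro h
    have h1 : u = v := by
      have h2 := congrArg (· + v) h
      simp only [add_assoc, two_zero, add_zero, zero_add] at h2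
      exact h2
    have h2 := hf h1
    simp at h2
  have hshift : ∀ j : Fin s, u + f (Sum.inr j) + (u + v) ∈ S := by
    intro j
    have h1 := hadj ⟨1, by omega⟩ j
    rw [← hv] at h1
    have h2 : u + f (Sum.inr j) + (u + v) = v + f (Sum.inr j) := by
      calc u + f (Sum.inr j) + (u + v) = (u + u) + (v + f (Sum.inr j)) := by abel
        _ = _ := by rw [two_zero, zero_add]
    rw [h2]
    exact h1
  have hne : ∀ i j : Fin s, i ≠ j → u + f (Sum.inr i) ≠ u + f (Sum.inr j) := by
    intro i j hij h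
    have h1 := hf (add_left_cancel h)
    exact hij (Sum.inr_injective h1)
  rcases hS (u + v) _ _ _ huv (hadj ⟨0, by omega⟩ ⟨0, by omega⟩) (hadj ⟨0, by omega⟩ ⟨1, by omega⟩)
    (hadj ⟨0, by omega⟩ ⟨2, by omega⟩) (hshift _) (hshift _) (hshift _) with h | h | h
  · exact hne _ _ (by simp) h
  · exact hne _ _ (by simp) h
  · exact hne _ _ (by simp) h

theorem edges {k : ℕ} (S : Finset (Fin k → ZMod 2)) (h0 : 0 ∉ S) [DecidableRel (cay S).Adj] :
    2 * (cay S).edgeFinset.card = 2 ^ k * S.card := by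
  rw [← SimpleGraph.sum_degrees_eq_twice_card_edges]
  have h1 : ∀ u, (cay S).degree u = S.card := by
    intro u
    rw [← SimpleGraph.card_neighborFinset_eq_degree]
    refine card_bij (fun v _ => u + v) ?_ ?_ ?_
    · intro v hv
      rw [SimpleGraph.mem_neighborFinset] at hv
      exact hv.2
    · intro v _ w _ h
      exact add_left_cancel h
    · intro z hz
      refine ⟨u + z, ?_, ?_⟩
      · rw [SimpleGraph.mem_neighborFinset]
        refine ⟨?_, ?_⟩
        · intro h
          apply h0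
          have : z = 0 := by
            have h2 : u + 0 = u + z := by rw [add_zero]; exact h
            exact (add_left_cancel h2).symm
          rw [← this]
          exact hz
        · rw [← add_assoc, two_zero, zero_add]
          exact hz
      · rw [← add_assoc, two_zero, zero_add]
  rw [sum_congr rfl fun u _ => h1 u, sum_const, smul_eq_mul, card_univ]
  congr 1
  rw [Fintype.card_fun, ZMod.card, Fintype.card_fin]

/-- the algebraic core -/
theorem core {K : Type*} [Field K] [CharP K 2] {c e x y z : K} (hce : ¬ (c = 0 ∧ e = 0))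
    (hx : x ^ 3 + (x + c) ^ 3 = e) (hy : y ^ 3 + (y + c) ^ 3 = e)
    (hz : z ^ 3 + (z + c) ^ 3 = e) : x = y ∨ x = z ∨ y = z := by
  have h2 : (2 : K) = 0 := CharTwo.two_eq_zero
  have hc : c ≠ 0 := by
    intro h
    apply hce
    refine ⟨h, ?_⟩
    rw [← hx, h, add_zero]
    linear_combination x ^ 3 * h2
  have key : ∀ a b : K, a ^ 3 + (a + c) ^ 3 = e → b ^ 3 + (b + c) ^ 3 = e → a ≠ b →
      a + b = c := by
    intro a b ha hb hab
    have h1 : c * ((a - b) * (a + b + c)) = 0 := by
      linear_combination ha - hb - (a ^ 3 - b ^ 3 + (a ^ 2 - b ^ 2) * c + (a - b) * c ^ 2) * h2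
    rcases mul_eq_zero.1 h1 with h3 | h3
    · exact absurd h3 hc
    · rcases mul_eq_zero.1 h3 with h4 | h4
      · exact absurd (sub_eq_zero.1 h4) hab
      · linear_combination h4 - c * h2
  by_contra hcon
  push Not at hcon
  obtain ⟨h3, h4, h5⟩ := hcon
  have h6 := key x y hx hy h3
  have h7 := key x z hx hz h4
  exact h5 (by linear_combination h6 - h7)

/-- the connection set -/
theorem exists_set (m b : ℕ) (hm : 1 ≤ m) : ∃ S : Finset (Fin (2 * m + b) → ZMod 2),
    0 ∉ S ∧ Good S ∧ S.card = 2 ^ m - 1 := by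
  classical
  let K := GaloisField 2 m
  have : Fact (Nat.Prime 2) := ⟨Nat.prime_two⟩
  have hfr : Module.finrank (ZMod 2) K = m := GaloisField.finrank 2 (by omega)
  have : Finite K := inferInstanceAs (Finite (GaloisField 2 m))
  have : Fintype K := Fintype.ofFinite K
  have hcardK : Fintype.card K = 2 ^ m := by
    have h := GaloisField.card 2 m (by omega)
    rw [← Nat.card_eq_fintype_card]
    exact h
  have e : ((K × K) × (Fin b → ZMod 2)) ≃ₗ[ZMod 2] (Fin (2 * m + b) → ZMod 2) := by
    refine LinearEquiv.ofFinrankEq _ _ ?_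
    rw [Module.finrank_prod, Module.finrank_prod, hfr, Module.finrank_fin_fun,
      Module.finrank_fin_fun]
    ring
  let g : K → (Fin (2 * m + b) → ZMod 2) := fun x => e ((x, x ^ 3), 0)
  have hg : Function.Injective g := by
    intro x y h
    have h1 := e.injective h
    exact congrArg (fun p : (K × K) × (Fin b → ZMod 2) => p.1.1) h1
  have hmem : ∀ z, z ∈ (univ.erase (0 : K)).image g ↔ ∃ x, x ≠ 0 ∧ g x = z := by
    intro z
    simp [mem_image, mem_erase]
  refine ⟨(univ.erase (0 : K)).image g, ?_, ?_, ?_⟩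
  · rw [hmem]
    rintro ⟨x, hx, h⟩
    have h1 : g 0 = 0 := by
      simp only [g]
      have : (((0 : K), (0 : K) ^ 3), (0 : Fin b → ZMod 2)) = 0 := by
        rw [zero_pow (by norm_num)]
        rfl
      rw [this, map_zero]
    rw [← h1] at h
    exact hx (hg h)
  · intro a s₁ s₂ s₃ ha h1 h2 h3 h4 h5 h6
    rw [hmem] at h1 h2 h3 h4 h5 h6
    obtain ⟨x₁, -, rfl⟩ := h1
    obtain ⟨x₂, -, rfl⟩ := h2
    obtain ⟨x₃, -, rfl⟩ := h3
    obtain ⟨y₁, -, h4⟩ := h4
    obtain ⟨y₂, -, h5⟩ := h5
    obtain ⟨y₃, -, h6⟩ := h6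
    obtain ⟨⟨⟨c, d⟩, t⟩, rfl⟩ := e.surjective a
    have hz : ∀ x y : K, g y = g x + e ((c, d), t) → y = x + c ∧ y ^ 3 = x ^ 3 + d := by
      intro x y h
      simp only [g] at h
      rw [← map_add] at h
      have h1 := e.injective h
      simp only [Prod.mk_add_mk, Prod.mk.injEq] at h1
      exact h1.1
    have ht : t = 0 := by
      simp only [g] at h4
      rw [← map_add] at h4
      have h1 := e.injective h4
      simp only [Prod.mk_add_mk, Prod.mk.injEq, zero_add] at h1
      exact h1.2.symm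
    have hce : ¬ (c = 0 ∧ d = 0) := by
      rintro ⟨rfl, rfl⟩
      apply ha
      rw [ht]
      exact map_zero e
    have h2 : (2 : K) = 0 := CharTwo.two_eq_zero
    have hf : ∀ x y : K, g y = g x + e ((c, d), t) → x ^ 3 + (x + c) ^ 3 = d := by
      intro x y h
      obtain ⟨h7, h8⟩ := hz x y h
      rw [← h7, h8]
      linear_combination x ^ 3 * h2
    rcases core hce (hf _ _ h4) (hf _ _ h5) (hf _ _ h6) with h | h | h
    · exact Or.inl (by rw [h])
    · exact Or.inr (Or.inl (by rw [h]))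
    · exact Or.inr (Or.inr (by rw [h]))
  · rw [card_image_of_injective _ hg, card_erase_of_mem (mem_univ _), card_univ, hcardK]

end Pool.MP9a747aH98
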